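import Mathlib
import Pool.Agent.TH820.DedN

/-!
# Quotients of Dedekind zeta functions and a Galois subextension with the same order of vanishing

`Pool.Agent.H541R3.ART.ArtinData G s₀` is a family of functions with the formal properties of the
Artin L-functions of a Galois extension `E/K` with group `G` near a point `s₀ ≠ 1`: functions
`L χ` for the irreducible characters `χ` of `G`, meromorphic and not identically zero near `s₀`
(Brauer), and `Lin H ψ` for the linear characters `ψ` of the subgroups `H`, without pole at `s₀`
(Artin reciprocity and Hecke), such that `Lin H ψ` is the product of the `L χ ^ ⟨χ|_H, ψ⟩`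
(induction). In particular `Lin H 1` stands for the Dedekind zeta function of the fixed field of
`H`, and `Lin H ψ` for a Hecke L-function of this field.

`Pool.Agent.TH820.BuiltSC P Q` says that the group `Q` (here: its subgroup `⊤`) is obtained from the
trivial group by finitely many steps `M ≤ M'`, `M` and `M'` normal, such that `M' / M` is abelian or
generated by finitely many pairwise commuting subgroups, each a homomorphic image of a finite group
with the property `P`. `Pool.Agent.TH820.FacO r S` holds if all Heilbronn functions of degree at most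
`r` on `S` are constant, for instance (proved in the library) for `A_m` and classical groups in
characteristic two of large rank, and for `SL_n(q)`, `q` a power of an odd prime `p`, `n ≥ 3`, if
`r < n`, or if `p ≤ n` and `r gcd(n, q - 1) < q ^ (n - 1) - 1`.
-/

set_option autoImplicit false

open Pool.Agent.H541R3.ART

/-- Let `G` be the Galois group of `E/K`, let `N` be a normal subgroup, `F` its fixed field, and
suppose that `ζ_E` and `ζ_F` have the same order `r` at `s₀`. Let `U` be any subgroup of `G` and
`L = E ^ U`.
(1) `ζ_L` and `ζ_{L ∩ F}` have the same order at `s₀`; more generally the L-function of a linear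
character `ρ` of `U N = Gal(E / L ∩ F)` which is trivial on `N` has the same order as that of `ρ|_U`.
(2) The L-function of a linear character of `U` which is nontrivial on `U ∩ N = Gal(E / L F)` has
neither a zero nor a pole at `s₀`.
(3) If `U ≤ M` and `M / (M ∩ N)` is solvable, or built from abelian groups and groups with `FacO r`,
then the order of `ζ_{E ^ M}` at `s₀` is at most the order of `ζ_L`; more generally for the
L-functions of a linear character `ρ` of `M` and of `ρ|_U`. -/
theorem Pool.Agent.Results.MP_9fc8a5_nt.EqualOrders.result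
    (G : Type) [Group G] [Finite G] (s₀ : ℂ) (A : ArtinData G s₀) (r : ℕ)
    (hr : meromorphicOrderAt (A.Lin ⊥ 1) s₀ = (r : WithTop ℤ)) (N : Subgroup G) [N.Normal]
    (hN : meromorphicOrderAt (A.Lin N 1) s₀ = (r : WithTop ℤ)) (U : Subgroup G) :
    (∀ ρ : (U ⊔ N : Subgroup G) →* ℂˣ, (∀ x : (U ⊔ N : Subgroup G), (x : G) ∈ N → ρ x = 1) →
      meromorphicOrderAt (A.Lin U (ρ.comp (Subgroup.inclusion le_sup_left))) s₀
        = meromorphicOrderAt (A.Lin (U ⊔ N) ρ) s₀) ∧
    (∀ ψ : U →* ℂˣ, (∃ x : U, (x : G) ∈ N ∧ ψ x ≠ 1) →
      meromorphicOrderAt (A.Lin U ψ) s₀ = 0) ∧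
    ∀ (M : Subgroup G) (hUM : U ≤ M),
      (Group.IsSolvable (M ⧸ N.subgroupOf M) ∨
        Pool.Agent.TH820.BuiltSC (Pool.Agent.TH820.FacO r)
          (⊤ : Subgroup (M ⧸ N.subgroupOf M))) →
      ∀ ρ : M →* ℂˣ, meromorphicOrderAt (A.Lin M ρ) s₀
        ≤ meromorphicOrderAt (A.Lin U (ρ.comp (Subgroup.inclusion hUM))) s₀ := by
  refine ⟨fun ρ hρ => Pool.Agent.TH820.ded_sup A hr N hN U ρ hρ,
    fun ψ hψ => Pool.Agent.TH820.ded_zero A hr N hN U ψ hψ, fun M hUM hM ρ => ?_⟩
  refine Pool.Agent.TH820.ded_quot A hr N hN U M hUM ?_ ρ
  rcases hM with h | h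
  · exact Pool.Agent.TH820.builtSC_solvable h
  · exact h
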